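import Pool.Agent.Y859.SF.Stm

/-! Project SF: the case `t > s`. -/

set_option autoImplicit false

namespace Pool.Agent.Y317.SF

open Finset Pool.Agent.Y859.SF

theorem blk_succ (A t : ℕ) : blk A (A + (t + 1)) = blk A (A + t) * (A + t + 1) := by
  unfold blk
  rw [← add_assoc, prod_Ioc_succ_top (Nat.le_add_right A t)]

theorem blk_pos (A B : ℕ) : 0 < blk A B :=
  prod_pos fun j hj => by
    have := (mem_Ioc.1 hj).1
    omega

theorem fac_blk_add (A t : ℕ) : (A + t).factorial = A.factorial * blk A (A + t) := by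
  induction t with
  | zero => simp [blk]
  | succ t ih =>
    rw [blk_succ, ← add_assoc, Nat.factorial_succ, ih]
    ring

theorem fac_blk {A B : ℕ} (h : A ≤ B) : B.factorial = A.factorial * blk A B := by
  obtain ⟨t, rfl⟩ := Nat.exists_eq_add_of_le h
  exact fac_blk_add A t

theorem even_tr {m b y y' : ℕ} (h : Rep m b y y') (p : ℕ) :
    Even ((blk b m).factorization p + (blk y' y).factorization p) := by
  obtain ⟨h1, h2, h3, r, hr⟩ := h
  have hb := Nat.factorial_ne_zero b
  have hy := Nat.factorial_ne_zero y'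
  have hU := (blk_pos b m).ne'
  have hW := (blk_pos y' y).ne'
  have hr0 : r ≠ 0 := by
    rintro rfl
    exact (mul_ne_zero (mul_ne_zero (mul_ne_zero (Nat.factorial_ne_zero m)
      (Nat.factorial_ne_zero b)) (Nat.factorial_ne_zero y)) (Nat.factorial_ne_zero y')) hr
  rw [fac_blk h3.le, fac_blk h1] at hr
  have h4 : ((b.factorial * y'.factorial) * (b.factorial * y'.factorial)) *
      (blk b m * blk y' y) = r * r := by
    rw [← hr]
    ring
  have h5 : (((b.factorial * y'.factorial) * (b.factorial * y'.factorial)) *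
      (blk b m * blk y' y)).factorization p = (r * r).factorization p := by rw [h4]
  rw [Nat.factorization_mul (mul_ne_zero (mul_ne_zero hb hy) (mul_ne_zero hb hy))
    (mul_ne_zero hU hW), Nat.factorization_mul (mul_ne_zero hb hy) (mul_ne_zero hb hy),
    Nat.factorization_mul hU hW, Nat.factorization_mul hr0 hr0] at h5
  simp only [Finsupp.add_apply] at h5
  refine ⟨r.factorization p - (b.factorial * y'.factorial).factorization p, ?_⟩
  omega

theorem le_blk (b t : ℕ) : (b + 1) ^ t ≤ blk b (b + t) := by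
  induction t with
  | zero => simp [blk]
  | succ t ih =>
    rw [blk_succ, pow_succ]
    exact Nat.mul_le_mul ih (by omega)

theorem blk_le (A B : ℕ) : blk A B ≤ B ^ (B - A) := by
  have := prod_le_pow_card (Ioc A B) (fun j => j) B fun j hj => (mem_Ioc.1 hj).2
  rwa [Nat.card_Ioc] at this

theorem t_5A : S_5A := by
  intro h A₀
  refine ⟨4 ^ h * A₀ ^ 2 + 2 * h + 1, ?_⟩
  rintro N m b y y' hN hm1 hm2 hrep hh hst ⟨f, α, hf, hU, hα⟩
  have hrep' := hrep
  obtain ⟨h1, h2, h3, -⟩ := hrep'
  have hf0 : f ≠ 0 := hf.ne_zero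
  have hUpos := blk_pos b m
  have hα0 : α ≠ 0 := by
    rintro rfl
    rw [hU] at hUpos
    simp at hUpos
  -- `f` divides the second block
  have hdvd : f ∣ blk y' y := by
    rw [← Nat.prod_primeFactors_of_squarefree hf]
    refine prod_primes_dvd _ (fun p hp => (Nat.prime_of_mem_primeFactors hp).prime) ?_
    intro p hp
    have hpp := Nat.prime_of_mem_primeFactors hp
    have hpf := Nat.dvd_of_mem_primeFactors hp
    have hf1 : f.factorization p = 1 := by
      have h4 := hf.natFactorization_le_one p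
      have h5 := hpp.factorization_pos_of_dvd hf0 hpf
      omega
    have h6 := even_tr hrep p
    rw [hU, Nat.factorization_mul hf0 (pow_ne_zero 2 hα0), Nat.factorization_pow] at h6
    simp only [Finsupp.add_apply, Finsupp.smul_apply, smul_eq_mul, hf1] at h6
    have h7 : (blk y' y).factorization p ≠ 0 := by
      intro h8
      rw [h8, Nat.even_iff] at h6
      omega
    exact Nat.dvd_of_factorization_pos h7
  have hfW : f ≤ (2 * N) ^ (m - b - 1) := by
    calc f ≤ blk y' y := Nat.le_of_dvd (blk_pos _ _) hdvd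
      _ ≤ y ^ (y - y') := blk_le _ _
      _ ≤ (2 * N) ^ (y - y') := Nat.pow_le_pow_left (by omega) _
      _ ≤ (2 * N) ^ (m - b - 1) := Nat.pow_le_pow_right (by omega) (by omega)
  obtain ⟨t, ht⟩ : ∃ t, m = b + (t + 1) := ⟨m - b - 1, by omega⟩
  have hlow : (b + 1) ^ (t + 1) ≤ blk b m := by
    rw [ht]
    exact le_blk b (t + 1)
  have hmb : m - b - 1 = t := by omega
  rw [hmb] at hfW
  have hNb : N ≤ 2 * (b + 1) := by omega
  have hth : 2 * t + 1 ≤ 2 * h := by omega
  have hmain : N ^ t * N ≤ N ^ t * (4 ^ h * A₀ ^ 2) := by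
    calc N ^ t * N = N ^ (t + 1) := (pow_succ N t).symm
      _ ≤ (2 * (b + 1)) ^ (t + 1) := Nat.pow_le_pow_left hNb _
      _ = 2 ^ (t + 1) * (b + 1) ^ (t + 1) := mul_pow _ _ _
      _ ≤ 2 ^ (t + 1) * (f * α ^ 2) := Nat.mul_le_mul_left _ (hU ▸ hlow)
      _ ≤ 2 ^ (t + 1) * ((2 * N) ^ t * A₀ ^ 2) :=
          Nat.mul_le_mul_left _ (Nat.mul_le_mul hfW (Nat.pow_le_pow_left hα 2))
      _ = N ^ t * (2 ^ (2 * t + 1) * A₀ ^ 2) := by
          rw [mul_pow]
          ring
      _ ≤ N ^ t * (2 ^ (2 * h) * A₀ ^ 2) :=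
          Nat.mul_le_mul_left _ (Nat.mul_le_mul_right _ (Nat.pow_le_pow_right (by norm_num) hth))
      _ = N ^ t * (4 ^ h * A₀ ^ 2) := by rw [pow_mul]; norm_num
  have h8 := Nat.le_of_mul_le_mul_left hmain (pow_pos (by omega) t)
  omega

end Pool.Agent.Y317.SF
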